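import Mathlib

namespace Pool.Agent.Results.MP_91bf1e_al.Depends

/-- ball of radius `n` for the word length with respect to `X ∪ X⁻¹` -/
def ball {G : Type} [Group G] (X : Finset G) (n : ℕ) : Set G :=
  {g | ∃ l : List G, (∀ x ∈ l, x ∈ X ∨ x⁻¹ ∈ X) ∧ l.length ≤ n ∧ l.prod = g}

/-- the `φ`-conjugacy class of `y` -/
def cls {G : Type} [Group G] (φ : G →* G) (y : G) : Set G := {x | ∃ z, x = z * y * (φ z)⁻¹}

/-- the twisted conjugacy ratio -/
noncomputable def tcr {G : Type} [Group G] (φ : G →* G) (X : Finset G) : ℝ :=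
  Filter.limsup (fun n => ((cls φ '' ball X n).ncard : ℝ) / (ball X n).ncard) Filter.atTop

open FreeGroup

abbrev F := FreeGroup Bool

def psi : F →* F := FreeGroup.lift fun i => of i ^ 4

def q4 (L : List (Bool × Bool)) : List (Bool × Bool) := L.flatMap fun a => [a, a, a, a]

theorem psi_mk (L : List (Bool × Bool)) : psi (mk L) = mk (q4 L) := by
  induction L with
  | nil => exact map_one psi
  | cons a L ih =>
    have e : ∀ a : Bool × Bool, psi (mk [a]) = mk [a, a, a, a] := by decide
    rw [show mk (a :: L) = mk [a] * mk L from rfl, psi.map_mul, ih, e]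
    rfl

theorem q4_red (L : List (Bool × Bool)) (h : FreeGroup.IsReduced L) :
    FreeGroup.IsReduced (q4 L) := by
  induction L with
  | nil => exact h
  | cons a L ih =>
    cases L with
    | nil => simp [q4, FreeGroup.IsReduced]
    | cons b L =>
      rw [isReduced_cons_cons] at h
      have := ih h.2
      simp only [q4, List.flatMap_cons, List.cons_append, List.nil_append,
        isReduced_cons_cons] at this ⊢
      simp only [implies_true, true_and] at this ⊢
      exact ⟨h.1, this⟩

theorem psi_word (u : F) : (psi u).toWord = q4 u.toWord := by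
  conv_lhs => rw [← mk_toWord (x := u), psi_mk, toWord_mk]
  exact (q4_red _ isReduced_toWord).reduce_eq

theorem psi_norm (u : F) : (psi u).norm = 4 * u.norm := by
  simp [FreeGroup.norm, psi_word, q4, mul_comm]

def og (w : F) : Bool := (w.toWord.getLast?.map fun a => !a.1).getD true

theorem word_mul (w v : F) (h : ∀ b ∈ v.toWord.head?, b.1 = og w) :
    (w * v).toWord = w.toWord ++ v.toWord := by
  rw [toWord_mul]
  refine IsReduced.reduce_eq (List.isChain_append.2 ⟨isReduced_toWord, isReduced_toWord, ?_⟩)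
  intro a ha b hb e
  have := h b hb
  rw [og, Option.mem_def.1 ha, ← e] at this
  simp at this

def ext (p : F × Bool) : F := p.1 * mk [(og p.1, p.2)]

theorem ext_word (p : F × Bool) : (ext p).toWord = p.1.toWord ++ [(og p.1, p.2)] := by
  rw [ext, word_mul _ _ (by simp [toWord_mk]), toWord_mk, reduce_singleton]

theorem ext_norm (p : F × Bool) : (ext p).norm = p.1.norm + 1 := by
  simp [FreeGroup.norm, ext_word]

theorem ext_inj : Function.Injective ext := by
  intro p q h
  have := congrArg toWord h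
  rw [ext_word, ext_word] at this
  obtain ⟨h1, h2⟩ := List.append_inj' this rfl
  simp only [List.cons.injEq, Prod.mk.injEq, and_true] at h2
  exact Prod.ext (toWord_injective h1) h2.2

theorem longer (w z : F) (hz : z ≠ 1) :
    (ext (w, true)).norm < (z * ext (w, true) * (psi z)⁻¹).norm := by
  have h1 : (w * (of (og w) * psi z⁻¹)).toWord = w.toWord ++ (of (og w) * psi z⁻¹).toWord := by
    apply word_mul
    rw [toWord_mul, toWord_of, List.singleton_append, reduce.cons, reduce_toWord, psi_word]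
    cases z⁻¹.toWord with
    | nil => simp [q4]
    | cons a L =>
      simp only [q4, List.flatMap_cons, List.cons_append]
      split_ifs with h
      · simp [h.1]
      · simp
  have h2 : (w * (of (og w) * psi z⁻¹)).norm = w.norm + (of (og w) * psi z⁻¹).norm := by
    simp only [FreeGroup.norm, h1, List.length_append]
  have h3 := norm_mul_le (of (og w))⁻¹ (of (og w) * psi z⁻¹)
  rw [inv_mul_cancel_left, psi_norm, norm_inv_eq, norm_inv_eq, norm_of] at h3
  have h4 := norm_mul_le z⁻¹ (z * ext (w, true) * (psi z)⁻¹)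
  have e : z⁻¹ * (z * ext (w, true) * (psi z)⁻¹) = w * (of (og w) * psi z⁻¹) := by
    rw [psi.map_inv, show ext (w, true) = w * of (og w) from rfl]; group
  rw [e, h2, norm_inv_eq] at h4
  have h5 : z.norm ≠ 0 := fun h => hz (norm_eq_zero.1 h)
  rw [ext_norm]
  simp only
  omega

def FB (n : ℕ) : Set F := {w | w.norm ≤ n}

theorem FB_succ (n : ℕ) : FB (n + 1) ⊆
    FB n ∪ (fun p : (Bool × Bool) × F => mk [p.1] * p.2) '' (Set.univ ×ˢ FB n) := by
  intro w hw
  cases e : w.toWord with
  | nil => left; simp [FB, FreeGroup.norm, e]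
  | cons a L =>
    right
    refine ⟨(a, mk L), ⟨trivial, norm_mk_le.trans ?_⟩, ?_⟩
    · simp only [FB, FreeGroup.norm, e, Set.mem_ofPred_eq, List.length_cons] at hw
      omega
    · rw [← mk_toWord (x := w), e]; rfl

theorem FB_fin (n : ℕ) : (FB n).Finite := by
  induction n with
  | zero => exact (Set.finite_singleton 1).subset fun w hw => norm_eq_zero.1 (Nat.le_zero.1 hw)
  | succ n ih => exact (ih.union ((Set.finite_univ.prod ih).image _)).subset (FB_succ n)

theorem FB_le (n : ℕ) : (FB (n + 1)).ncard ≤ 5 * (FB n).ncard := by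
  have h1 := Set.ncard_le_ncard (FB_succ n)
    ((FB_fin n).union ((Set.finite_univ.prod (FB_fin n)).image _))
  have h2 := Set.ncard_union_le (FB n)
    ((fun p : (Bool × Bool) × F => mk [p.1] * p.2) '' (Set.univ ×ˢ FB n))
  have h3 := Set.ncard_image_le (f := fun p : (Bool × Bool) × F => mk [p.1] * p.2)
    (Set.finite_univ.prod (FB_fin n))
  rw [Set.ncard_prod, Set.ncard_univ] at h3
  simp only [Nat.card_eq_fintype_card, Fintype.card_prod, Fintype.card_bool] at h3
  omega

theorem FB_ge (n : ℕ) : 2 * (FB n).ncard ≤ (FB (n + 1)).ncard := by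
  have h1 : ext '' (FB n ×ˢ Set.univ) ⊆ FB (n + 1) := by
    rintro _ ⟨p, hp, rfl⟩
    have : p.1.norm ≤ n := hp.1
    change (ext p).norm ≤ _
    rw [ext_norm]; omega
  have h2 := Set.ncard_le_ncard h1 (FB_fin _)
  rw [Set.ncard_image_of_injective _ ext_inj, Set.ncard_prod, Set.ncard_univ] at h2
  simp only [Nat.card_eq_fintype_card, Fintype.card_bool] at h2
  omega

theorem FB_pos (n : ℕ) : 0 < (FB n).ncard :=
  (Set.ncard_pos (FB_fin n)).2 ⟨1, by simp [FB]⟩

abbrev G := F × ℤˣ

def phi : G →* G := (MonoidHom.inl F ℤˣ).comp (psi.comp (MonoidHom.fst F ℤˣ))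

def XX : Finset G := {(of true, 1), (of false, 1), (1, -1)}

def YY : Finset G := {(of true, 1), (of false, 1), (1, -1), (of true, -1), (of false, -1)}

theorem XY : XX ⊆ YY := by decide

theorem inY (n : ℕ) (g : G) (h : g ∈ ball YY n) : g.1 ∈ FB n := by
  obtain ⟨l, h1, h2, rfl⟩ := h
  refine le_trans ?_ h2
  clear h2
  induction l with
  | nil => simp
  | cons a l ih =>
    have e : ∀ x ∈ YY, x.1.norm ≤ 1 := by decide
    have ha : a.1.norm ≤ 1 := by
      rcases h1 a (by simp) with h | h
      · exact e _ h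
      · simpa using e _ h
    have := norm_mul_le a.1 l.prod.1
    have := ih fun x hx => h1 x (List.mem_cons_of_mem _ hx)
    simp only [List.prod_cons, Prod.fst_mul, List.length_cons]
    omega

theorem inX (n : ℕ) (g : G) (h : g ∈ ball XX n) :
    g.1.norm + (if g.2 = 1 then 0 else 1) ≤ n := by
  obtain ⟨l, h1, h2, rfl⟩ := h
  refine le_trans ?_ h2
  clear h2
  induction l with
  | nil => simp
  | cons a l ih =>
    have e : ∀ x ∈ XX, (x.1.norm ≤ 1 ∧ x.2 = 1) ∨ x.1.norm = 0 := by decide
    have ha : (a.1.norm ≤ 1 ∧ a.2 = 1) ∨ a.1.norm = 0 := by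
      rcases h1 a (by simp) with h | h
      · exact e _ h
      · simpa using e _ h
    have := norm_mul_le a.1 l.prod.1
    have := ih fun x hx => h1 x (List.mem_cons_of_mem _ hx)
    rw [List.prod_cons, Prod.fst_mul, Prod.snd_mul, List.length_cons]
    rcases ha with ⟨h3, h4⟩ | h3
    · rw [h4, one_mul]; omega
    · split_ifs at this ⊢ <;> omega

theorem prod_map (L : List (Bool × Bool)) :
    (L.map fun a => ((mk [a], 1) : G)).prod = (mk L, 1) := by
  induction L with
  | nil => rfl
  | cons a L ih => rw [List.map_cons, List.prod_cons, ih]; rfl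

theorem letX : ∀ a : Bool × Bool, ((mk [a], 1) : G) ∈ XX ∨ ((mk [a], 1) : G)⁻¹ ∈ XX := by decide

theorem letY : ∀ a : Bool × Bool, ((mk [a], -1) : G) ∈ YY ∨ ((mk [a], -1) : G)⁻¹ ∈ YY := by
  decide

theorem toX (n : ℕ) (w : F) (h : w ∈ FB n) : ((w, 1) : G) ∈ ball XX n := by
  refine ⟨w.toWord.map fun a => (mk [a], 1), ?_, by rw [List.length_map]; exact h,
    by rw [prod_map, mk_toWord]⟩
  intro x hx
  obtain ⟨a, _, rfl⟩ := List.mem_map.1 hx
  exact letX a

theorem ball_mono (n : ℕ) : ball XX n ⊆ ball YY n := by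
  rintro g ⟨l, h1, h2⟩
  exact ⟨l, fun x hx => (h1 x hx).imp (fun h => XY h) (fun h => XY h), h2⟩

theorem toY (n : ℕ) (g : G) (h : g.1 ∈ FB (n + 1)) : g ∈ ball YY (n + 1) := by
  obtain ⟨w, e⟩ := g
  rcases Int.units_eq_one_or e with rfl | rfl
  · exact ball_mono _ (toX _ w h)
  cases hw : w.toWord with
  | nil =>
    rw [toWord_eq_nil_iff.1 hw]
    exact ⟨[(1, -1)], by decide, by simp, by simp⟩
  | cons a L =>
    have hL : mk L ∈ FB n := by
      simp only [FB, FreeGroup.norm, hw, Set.mem_ofPred_eq, List.length_cons] at h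
      exact norm_mk_le.trans (by omega)
    obtain ⟨l, h1, h2, h3⟩ := ball_mono _ (toX _ _ hL)
    refine ⟨(mk [a], -1) :: l, ?_, by simpa using h2, ?_⟩
    · intro x hx
      rcases List.mem_cons.1 hx with rfl | hx
      · exact letY a
      · exact h1 x hx
    · rw [List.prod_cons, h3, ← mk_toWord (x := w), hw]; rfl

theorem ballY (n : ℕ) : ball YY (n + 1) = FB (n + 1) ×ˢ Set.univ :=
  Set.ext fun g => ⟨fun h => ⟨inY _ g h, trivial⟩, fun h => toY n g h.1⟩

theorem finY (n : ℕ) : (ball YY n).Finite :=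
  ((FB_fin n).prod Set.finite_univ).subset fun g h => ⟨inY _ g h, trivial⟩

theorem finX (n : ℕ) : (ball XX n).Finite := (finY n).subset (ball_mono n)

theorem cardY (n : ℕ) : (ball YY (n + 1)).ncard = 2 * (FB (n + 1)).ncard := by
  rw [ballY, Set.ncard_prod, Set.ncard_univ]
  simp [mul_comm]

theorem cardX (n : ℕ) : (ball XX (n + 1)).ncard ≤ (FB (n + 1)).ncard + (FB n).ncard := by
  have h : ball XX (n + 1) ⊆ FB (n + 1) ×ˢ {1} ∪ FB n ×ˢ {-1} := by
    rintro ⟨w, e⟩ hg
    have := inX _ _ hg
    rcases Int.units_eq_one_or e with rfl | rfl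
    · exact Or.inl ⟨by simpa [FB] using this, rfl⟩
    · exact Or.inr ⟨by simpa [FB] using this, rfl⟩
  have h1 := Set.ncard_le_ncard h
    (((FB_fin _).prod (Set.finite_singleton _)).union ((FB_fin _).prod (Set.finite_singleton _)))
  have h2 := Set.ncard_union_le (FB (n + 1) ×ˢ ({1} : Set ℤˣ)) (FB n ×ˢ {-1})
  simp only [Set.ncard_prod, Set.ncard_singleton, mul_one] at h2
  omega

theorem cls_eq (n : ℕ) : cls phi '' ball YY n = cls phi '' ball XX n := by
  refine Set.Subset.antisymm ?_ (Set.image_mono (ball_mono n))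
  rintro _ ⟨⟨w, e⟩, hg, rfl⟩
  refine ⟨(w, 1), toX n w (inY n _ hg), Set.ext fun x => ⟨?_, ?_⟩⟩
  · rintro ⟨z, rfl⟩
    exact ⟨z * (1, e⁻¹), Prod.ext (by simp [phi]) (by simp [phi, -Int.units_inv_eq_self])⟩
  · rintro ⟨z, rfl⟩
    exact ⟨z * (1, e), by ext <;> simp [phi]⟩

theorem many (n : ℕ) : (FB n).ncard ≤ (cls phi '' ball XX (n + 1)).ncard := by
  refine Set.ncard_le_ncard_of_injOn (fun w => cls phi (ext (w, true), 1)) ?_ ?_
    ((finX _).image _)
  · intro w hw
    refine ⟨_, toX _ _ ?_, rfl⟩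
    have : w.norm ≤ n := hw
    change (ext (w, true)).norm ≤ _
    rw [ext_norm]
    simpa using this
  · intro w _ v _ h
    have h1 : ((ext (w, true), 1) : G) ∈ cls phi (ext (w, true), 1) := ⟨1, by simp⟩
    simp only at h
    rw [h] at h1
    obtain ⟨z, hz⟩ := h1
    have h2 : ext (w, true) = z.1 * ext (v, true) * (psi z.1)⁻¹ := congrArg Prod.fst hz
    by_cases h3 : z.1 = 1
    · rw [h3] at h2
      exact congrArg Prod.fst (ext_inj (by simpa using h2))
    · have h4 := longer v z.1 h3
      have h5 := longer w z.1⁻¹ (inv_ne_one.2 h3)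
      rw [← h2] at h4
      rw [show z.1⁻¹ * ext (w, true) * (psi z.1⁻¹)⁻¹ = ext (v, true) by
        rw [h2, psi.map_inv]; group] at h5
      omega

theorem gen : Subgroup.closure (XX : Set G) = ⊤ := by
  rw [eq_top_iff]
  rintro ⟨w, e⟩ -
  have h1 : ((w, 1) : G) ∈ Subgroup.closure (XX : Set G) := by
    obtain ⟨l, h1, -, h2⟩ := toX w.norm w (le_refl w.norm)
    rw [← h2]
    refine Subgroup.list_prod_mem _ fun x hx => ?_
    rcases h1 x hx with h | h
    · exact Subgroup.subset_closure h
    · exact (Subgroup.inv_mem_iff _).1 (Subgroup.subset_closure h)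
  rcases Int.units_eq_one_or e with rfl | rfl
  · exact h1
  · have h2 : ((1, -1) : G) ∈ Subgroup.closure (XX : Set G) :=
      Subgroup.subset_closure (by simp [XX])
    simpa using mul_mem h1 h2

theorem ratio (X : Finset G) (n : ℕ) (h : (ball X n).Finite) :
    0 ≤ ((cls phi '' ball X n).ncard : ℝ) / (ball X n).ncard ∧
      ((cls phi '' ball X n).ncard : ℝ) / (ball X n).ncard ≤ 1 :=
  ⟨by positivity, div_le_one_of_le₀ (by exact_mod_cast Set.ncard_image_le h) (by positivity)⟩

theorem result : ∃ (G : Type) (_ : Group G) (φ : G →* G) (X Y : Finset G),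
    Subgroup.closure (X : Set G) = ⊤ ∧ Subgroup.closure (Y : Set G) = ⊤ ∧ tcr φ X ≠ tcr φ Y := by
  refine ⟨G, inferInstance, phi, XX, YY, gen,
    eq_top_iff.2 (gen.ge.trans (Subgroup.closure_mono XY)), ?_⟩
  have key : ∀ᶠ n in Filter.atTop,
      ((cls phi '' ball YY n).ncard : ℝ) / (ball YY n).ncard + 1 / 30 ≤
        ((cls phi '' ball XX n).ncard : ℝ) / (ball XX n).ncard := by
    refine Filter.eventually_atTop.2 ⟨1, fun n hn => ?_⟩
    obtain ⟨n, rfl⟩ : ∃ m, n = m + 1 := ⟨n - 1, by omega⟩
    rw [cls_eq, cardY]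
    have h0 : (0 : ℝ) < (ball XX (n + 1)).ncard := by
      exact_mod_cast (Set.ncard_pos (finX _)).2 ⟨_, toX _ 1 (by simp [FB])⟩
    have h1 : ((ball XX (n + 1)).ncard : ℝ) ≤ (FB (n + 1)).ncard + (FB n).ncard := by
      exact_mod_cast cardX n
    have h2 : ((FB (n + 1)).ncard : ℝ) ≤ 5 * (FB n).ncard := by exact_mod_cast FB_le n
    have h3 : 2 * ((FB n).ncard : ℝ) ≤ (FB (n + 1)).ncard := by exact_mod_cast FB_ge n
    have h4 : ((FB n).ncard : ℝ) ≤ (cls phi '' ball XX (n + 1)).ncard := by exact_mod_cast many n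
    have h5 : (0 : ℝ) < (FB (n + 1)).ncard := by exact_mod_cast FB_pos _
    push_cast
    generalize ((cls phi '' ball XX (n + 1)).ncard : ℝ) = c at *
    generalize ((ball XX (n + 1)).ncard : ℝ) = x at *
    generalize ((FB (n + 1)).ncard : ℝ) = b at *
    generalize ((FB n).ncard : ℝ) = a at *
    calc c / (2 * b) + 1 / 30 ≤ c / (2 * b) + c / (6 * b) := by
          have : (1 : ℝ) / 30 ≤ c / (6 * b) := by
            rw [div_le_div_iff₀ (by norm_num) (by positivity)]
            linarith
          linarith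
      _ = c / (3 / 2 * b) := by field_simp; ring
      _ ≤ c / x := by
          apply div_le_div_of_nonneg_left (by linarith) h0
          linarith
  have b1 : ∀ X : Finset G, (∀ n, (ball X n).Finite) → Filter.IsBoundedUnder (· ≤ ·) Filter.atTop
      (fun n => ((cls phi '' ball X n).ncard : ℝ) / (ball X n).ncard) := fun X h =>
    Filter.isBoundedUnder_of ⟨1, fun n => (ratio X n (h n)).2⟩
  have b2 : Filter.IsCoboundedUnder (· ≤ ·) Filter.atTop
      (fun n => ((cls phi '' ball YY n).ncard : ℝ) / (ball YY n).ncard) :=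
    Filter.isCoboundedUnder_le_of_le _ fun n => (ratio YY n (finY n)).1
  have h := Filter.limsup_le_limsup key
    (Filter.isCoboundedUnder_le_of_le _ (x := 0) fun n => by
      have := (ratio YY n (finY n)).1
      linarith) (b1 XX finX)
  rw [limsup_add_const _ _ _ (b1 YY finY) b2] at h
  intro e
  unfold tcr at e
  rw [e] at h
  linarith

end Pool.Agent.Results.MP_91bf1e_al.Depends
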